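import Pool.Agent.W945.Lc.Stm2

set_option autoImplicit false

namespace Pool.Agent.W903.Lc2.NUMS
open Pool.Agent.W945.Pw Pool.Agent.W945.Lc

theorem big : 103 ^ 1000 ≤ 2 ^ 365 * 80 ^ 1000 := by decide +kernel

theorem rho_pow : rho ^ 1000 ≤ (2 : ℝ) ^ 365 := by
  have h : ((103 ^ 1000 : ℕ) : ℝ) ≤ ((2 ^ 365 * 80 ^ 1000 : ℕ) : ℝ) := Nat.cast_le.2 big
  rw [Nat.cast_mul, Nat.cast_pow, Nat.cast_pow, Nat.cast_pow] at h
  unfold rho
  rw [div_pow, div_le_iff₀ (by positivity)]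
  exact_mod_cast h

theorem rho_le (s : ℕ) : rho ^ (s + 3) ≤ (2 : ℝ) ^ ((365 * (s + 3) + 999) / 1000) := by
  have h0 : (0 : ℝ) ≤ rho := by unfold rho; norm_num
  have h1 : (rho ^ (s + 3)) ^ 1000 ≤ ((2 : ℝ) ^ ((365 * (s + 3) + 999) / 1000)) ^ 1000 := by
    calc (rho ^ (s + 3)) ^ 1000 = (rho ^ 1000) ^ (s + 3) := by
          rw [← pow_mul, ← pow_mul, mul_comm]
      _ ≤ ((2 : ℝ) ^ 365) ^ (s + 3) := pow_le_pow_left₀ (pow_nonneg h0 _) rho_pow _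
      _ = (2 : ℝ) ^ (365 * (s + 3)) := by rw [← pow_mul]
      _ ≤ (2 : ℝ) ^ ((365 * (s + 3) + 999) / 1000 * 1000) :=
          pow_le_pow_right₀ (by norm_num) (by omega)
      _ = _ := by rw [← pow_mul]
  exact (pow_le_pow_iff_left₀ (pow_nonneg h0 _) (by positivity) (by norm_num)).1 h1

theorem main : NUMS.Stm := by
  intro n s e
  rw [add_zero]
  have h1 := rho_le s
  have h0 : (0 : ℝ) ≤ rho ^ (s + 3) := by unfold rho; positivity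
  have h2 : (n : ℝ) ≤ (2 : ℝ) ^ (Nat.clog 2 n) := by
    exact_mod_cast Nat.le_pow_clog (by norm_num) n
  have h3 : rho ^ (s + 3) * (n : ℝ) ≤
      (2 : ℝ) ^ ((365 * (s + 3) + 999) / 1000) * (2 : ℝ) ^ (Nat.clog 2 n) :=
    mul_le_mul h1 h2 (Nat.cast_nonneg n) (by positivity)
  have h4 : (((2 : ℕ) ^ ((365 * (s + 3) + 999) / 1000 + Nat.clog 2 n + e) : ℕ) : ℝ) =
      (2 : ℝ) ^ ((365 * (s + 3) + 999) / 1000) * (2 : ℝ) ^ (Nat.clog 2 n) * 2 ^ e := by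
    rw [Nat.cast_pow, Nat.cast_ofNat, pow_add 2 _ e, pow_add 2 _ (Nat.clog 2 n)]
  rw [h4, ← mul_div_assoc, div_le_div_iff₀ (by positivity) (by positivity), one_mul]
  exact mul_le_mul_of_nonneg_right h3 (by positivity)

end Pool.Agent.W903.Lc2.NUMS
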